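import Mathlib
import Pool.Agent.Helper21.CH.Main

/-!
# A normal first-countable weakly Lindelöf space that is not cellular-Lindelöf, under CH

The point set is `G ∪ D` where `G = Y × ℕ` sits in the compact metrizable space
`K = Y × 2^ω` as `Y × Q` (`Q` countable dense in `2^ω`), and `D` is the graph of a
function `Y → 2^ω \ Q` built by a Lusin type construction.  Points of `D` are isolated;
a point `x` of `G` gets clopen neighbourhoods `W(x,n)` by recursion along a well-order
with countable initial segments, so that `W(x,n)` meets the line `Y × {q}` of `x` in a
countable set, while `W(x,n)` contains Euclidean balls around points of `D`.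
-/

open Set Topology TopologicalSpace

namespace Pool.Agent.Results.MP_3bc7a7_gt.NegativeUnderCH

/-- A cellular family: a family of pairwise disjoint nonempty open sets. -/
def IsCellularFamily {X : Type*} [TopologicalSpace X] (U : Set (Set X)) : Prop :=
  (∀ u ∈ U, IsOpen u ∧ u.Nonempty) ∧ ∀ u ∈ U, ∀ v ∈ U, u ≠ v → Disjoint u v

/-- Weakly Lindelöf: every open cover has a countable subfamily with dense union. -/
def WeaklyLindelof (X : Type*) [TopologicalSpace X] : Prop :=
  ∀ U : Set (Set X), (∀ u ∈ U, IsOpen u) → ⋃₀ U = univ →
    ∃ V : Set (Set X), V ⊆ U ∧ V.Countable ∧ Dense (⋃₀ V)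

/-- Cellular-Lindelöf: for every cellular family there is a subset, Lindelöf in the
subspace topology, which meets every member of the family. -/
def CellularLindelof (X : Type*) [TopologicalSpace X] : Prop :=
  ∀ U : Set (Set X), IsCellularFamily U →
    ∃ L : Set X, LindelofSpace L ∧ ∀ u ∈ U, (L ∩ u).Nonempty

/-- **Negative answer to the question, under CH.**  Assuming the continuum hypothesis there
is a normal `T₁` first-countable weakly Lindelöf space which is not cellular-Lindelöf. -/
theorem result (CH : Cardinal.continuum.{0} = Cardinal.aleph 1) :
    ∃ (X : Type) (_ : TopologicalSpace X), T1Space X ∧ NormalSpace X ∧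
      FirstCountableTopology X ∧ WeaklyLindelof X ∧ ¬ CellularLindelof X :=
  Pool.Agent.Helper21.CH.result CH

end Pool.Agent.Results.MP_3bc7a7_gt.NegativeUnderCH
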